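import Mathlib

/-!
# Smooth projective varieties, their pluricanonical sections, and rational curves
-/

set_option autoImplicit false

namespace Pool.Agent.H837.AB

open MvPolynomial

variable {K : Type} [Field K] {r N : ℕ}

/-- The vector `x` is a common zero of the forms `F i`; these vectors are the affine cone of the
projective variety `X`. -/
def Zero (F : Fin N → MvPolynomial (Fin (r + 1)) K) (x : Fin (r + 1) → K) : Prop :=
  ∀ i, eval x (F i) = 0

/-- The minor of the Jacobian matrix of the forms `F (T i)` with the columns `A`. -/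
noncomputable def jac {e : ℕ} {B : Type} [CommRing B] (F : Fin N → MvPolynomial (Fin (r + 1)) B)
    (T : Fin e → Fin N) (A : Fin e → Fin (r + 1)) : MvPolynomial (Fin (r + 1)) B :=
  (Matrix.of fun i l => pderiv (A l) (F (T i))).det

/-- `X` is smooth of pure codimension `e`: at every point `x` some `e` of the forms have independent
differentials, and they define `X` where some `u`, of degree at most `c`, with `u x ≠ 0` is not zero. -/
def SmoothBy (e c : ℕ) (F : Fin N → MvPolynomial (Fin (r + 1)) K) : Prop :=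
  ∀ x : Fin (r + 1) → K, x ≠ 0 → Zero F x → ∃ T : Fin e → Fin N,
    (∃ A : Fin e → Fin (r + 1), eval x (jac F T A) ≠ 0) ∧
    ∃ u : MvPolynomial (Fin (r + 1)) K, u.totalDegree ≤ c ∧ (eval x u ≠ 0 ∧
      ∀ y : Fin (r + 1) → K, (∀ i, eval y (F (T i)) = 0) → eval y u ≠ 0 → Zero F y)

/-- The polynomials `P (T, j)` give a section of the `m`-th power of the canonical bundle of `X`: its
pairing with `(F (T 1) ∧ ... ∧ F (T e)) ^ m` is `P (T, j) / x j ^ (m (r + 1) + k)`. -/
def IsCanonical (e m k : ℕ) (F : Fin N → MvPolynomial (Fin (r + 1)) K)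
    (P : (Fin e → Fin N) × Fin (r + 1) → MvPolynomial (Fin (r + 1)) K) : Prop :=
  ∀ x : Fin (r + 1) → K, Zero F x →
    (∀ (T : Fin e → Fin N) (j j' : Fin (r + 1)),
      x j' ^ (m * (r + 1) + k) * eval x (P (T, j)) = x j ^ (m * (r + 1) + k) * eval x (P (T, j'))) ∧
    ∀ (T T' : Fin e → Fin N) (A : Fin e → Fin (r + 1)) (j : Fin (r + 1)),
      eval x (P (T, j)) * eval x (jac F T' A) ^ m = eval x (P (T', j)) * eval x (jac F T A) ^ m

/-- The `m`-th power of the canonical bundle of `X` is generated by its global sections, for some `m`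
between `1` and `c`; the sections are given by forms with denominators of exponent `m (r + 1) + c`. The
degree of `F i` is `δ i`. -/
def SemiampleBy (e c : ℕ) (δ : Fin N → ℕ) (F : Fin N → MvPolynomial (Fin (r + 1)) K) : Prop :=
  ∃ m, m ≤ c ∧ 1 ≤ m ∧ ∀ x : Fin (r + 1) → K, x ≠ 0 → Zero F x →
    ∃ P : (Fin e → Fin N) × Fin (r + 1) → MvPolynomial (Fin (r + 1)) K,
      (∀ a, (P a).IsHomogeneous (m * (∑ i, δ (a.1 i)) + c)) ∧ IsCanonical e m c F P ∧
        ∃ a, eval x (P a) ≠ 0

/-- The pull-back of the canonical bundle of `X` along the map `τ` of degree `k` from the projective line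
to `X` has a nonzero section, that is, its degree is not negative. -/
def HasSection (e k : ℕ) (δ : Fin N → ℕ) (F : Fin N → MvPolynomial (Fin (r + 1)) K)
    (τ : Fin (r + 1) → MvPolynomial (Fin 2) K) : Prop :=
  ∃ p : (Fin e → Fin N) → MvPolynomial (Fin 2) K,
    (∀ T, (p T).IsHomogeneous (k * (∑ i, δ (T i)) - k * (r + 1))) ∧
    (∀ T, k * (∑ i, δ (T i)) < k * (r + 1) → ∀ s : Fin 2 → K, eval s (p T) = 0) ∧
    (∀ (T T' : Fin e → Fin N) (A : Fin e → Fin (r + 1)) (s : Fin 2 → K),
      eval s (p T) * eval (fun a => eval s (τ a)) (jac F T' A) =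
        eval s (p T') * eval (fun a => eval s (τ a)) (jac F T A)) ∧
    ∃ (T : Fin e → Fin N) (s : Fin 2 → K), eval s (p T) ≠ 0

/-- The canonical bundle has non-negative degree on all rational curves of degree `k` in `X`. -/
def NefAt (e k : ℕ) (δ : Fin N → ℕ) (F : Fin N → MvPolynomial (Fin (r + 1)) K) : Prop :=
  ∀ τ : Fin (r + 1) → MvPolynomial (Fin 2) K, (∀ a, (τ a).IsHomogeneous k) →
    (∀ s : Fin 2 → K, s ≠ 0 → ∃ a, eval s (τ a) ≠ 0) →
    (∀ s : Fin 2 → K, Zero F fun a => eval s (τ a)) → HasSection e k δ F τ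

/-- Abundance for smooth projective varieties of dimension `n` over the field `K`. -/
def Abundance (n : ℕ) (K : Type) [Field K] : Prop :=
  ∀ (e N : ℕ) (δ : Fin N → ℕ) (F : Fin N → MvPolynomial (Fin (n + e + 1)) K),
    (∀ i, (F i).IsHomogeneous (δ i)) → (∃ b, SmoothBy e b F) → (∀ k, NefAt e k δ F) →
      ∃ c, SemiampleBy e c δ F

end Pool.Agent.H837.AB
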