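import Pool.Agent.H837.UR.El
import Pool.Agent.H837.AB.Defs

/-!
# Pluricanonical sections and rational curves in ultraproducts
-/

set_option autoImplicit false

namespace Pool.Agent.H837.AB

open MvPolynomial Pool.Agent.H837.UF Pool.Agent.H837.UR
open Filter hiding map

theorem jac_map {A B : Type} [CommRing A] [CommRing B] (f : A →+* B) {r N e : ℕ}
    (F : Fin N → MvPolynomial (Fin (r + 1)) A) (T : Fin e → Fin N) (l : Fin e → Fin (r + 1)) :
    jac (fun i => map f (F i)) T l = map f (jac F T l) := by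
  rw [jac, jac, RingHom.map_det]
  congr 1
  ext i k
  rw [RingHom.mapMatrix_apply, Matrix.map_apply, Matrix.of_apply, Matrix.of_apply, pderiv_map]

variable {J : Type} {U : Ultrafilter J} {K : J → Type} [∀ j, Field (K j)] {L : Type} [Field L]
  {π : (∀ j, K j) →+* L}

theorem const_prop {P : Prop} : P ↔ ∀ᶠ _ in (U : Filter J), P :=
  ⟨fun h => Eventually.of_forall fun _ => h, fun h => by
    obtain ⟨_, hj⟩ := h.exists
    exact hj⟩

theorem all_fin {ι : Type} [Finite ι] {A : ι → Prop} {B : ι → J → Prop}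
    (h : ∀ i, A i ↔ ∀ᶠ j in U, B i j) : (∀ i, A i) ↔ ∀ᶠ j in U, ∀ i, B i j := by
  rw [eventually_all]
  exact forall_congr' h

theorem ex_fin {ι : Type} [Finite ι] {A : ι → Prop} {B : ι → J → Prop}
    (h : ∀ i, A i ↔ ∀ᶠ j in U, B i j) : (∃ i, A i) ↔ ∀ᶠ j in U, ∃ i, B i j := by
  have h1 := all_fin (U := U) (A := fun i => ¬ A i) (B := fun i j => ¬ B i j) fun i => by
    rw [h i, Ultrafilter.eventually_not]
  rw [← _root_.not_iff_not, ← Ultrafilter.eventually_not]
  push Not
  exact h1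

variable (hπ : IsUltra U π)

include hπ

/-- Quantifier over families of forms. -/
theorem ex_form {κ σ : Type} [Fintype σ] [DecidableEq σ] (D : κ → ℕ)
    {A : (κ → MvPolynomial σ L) → Prop} {B : ∀ j, (κ → MvPolynomial σ (K j)) → Prop}
    (h : ∀ Q : κ → MvPolynomial σ (∀ j, K j), A (fun a => map π (Q a)) ↔
      ∀ᶠ j in U, B j (fun a => map (Pi.evalRingHom K j) (Q a))) :
    (∃ P, (∀ a, (P a).IsHomogeneous (D a)) ∧ A P) ↔
      ∀ᶠ j in U, ∃ P : κ → MvPolynomial σ (K j), (∀ a, (P a).IsHomogeneous (D a)) ∧ B j P := by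
  constructor
  · rintro ⟨P, hP, hA⟩
    choose Q hQ hQP using fun a => hπ.exists_lift (hP a)
    obtain rfl : (fun a => map π (Q a)) = P := _root_.funext hQP
    filter_upwards [(h Q).mp hA] with j hj
    exact ⟨_, fun a => (hQ a).map _, hj⟩
  · intro hex
    obtain ⟨P, hP⟩ := eventually_choose hex
    choose Q hQ hQP using fun a => exists_glue (N := D a) fun j => P j a
    refine ⟨fun a => map π (Q a), fun a => (hQ a).map _, (h Q).mpr ?_⟩
    filter_upwards [hP] with j hj
    have h1 : (fun a => map (Pi.evalRingHom K j) (Q a)) = P j :=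
      _root_.funext fun a => hQP a j (hj.1 a)
    rw [h1]
    exact hj.2

theorem all_form {κ σ : Type} [Fintype σ] [DecidableEq σ] (D : κ → ℕ)
    {A : (κ → MvPolynomial σ L) → Prop} {B : ∀ j, (κ → MvPolynomial σ (K j)) → Prop}
    (h : ∀ Q : κ → MvPolynomial σ (∀ j, K j), A (fun a => map π (Q a)) ↔
      ∀ᶠ j in U, B j (fun a => map (Pi.evalRingHom K j) (Q a))) :
    (∀ P, (∀ a, (P a).IsHomogeneous (D a)) → A P) ↔
      ∀ᶠ j in U, ∀ P : κ → MvPolynomial σ (K j), (∀ a, (P a).IsHomogeneous (D a)) → B j P := by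
  have h1 := ex_form hπ D (A := fun P => ¬ A P) (B := fun j P => ¬ B j P) fun Q => by
    rw [h Q, Ultrafilter.eventually_not]
  rw [← _root_.not_iff_not, ← Ultrafilter.eventually_not]
  push Not
  exact h1

variable {r N : ℕ}

/-- The polynomials over the ultraproduct. -/
noncomputable abbrev lim (π : (∀ j, K j) →+* L) (F : Fin N → MvPolynomial (Fin (r + 1)) (∀ j, K j)) :
    Fin N → MvPolynomial (Fin (r + 1)) L := fun i => map π (F i)

/-- The polynomials over the fields `K j`. -/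
noncomputable abbrev at' (F : Fin N → MvPolynomial (Fin (r + 1)) (∀ j, K j)) (j : J) :
    Fin N → MvPolynomial (Fin (r + 1)) (K j) := fun i => map (Pi.evalRingHom K j) (F i)

variable (F : Fin N → MvPolynomial (Fin (r + 1)) (∀ j, K j))

theorem zero_los (x : Fin (r + 1) → ∀ j, K j) :
    Zero (lim π F) (fun a => π (x a)) ↔ ∀ᶠ j in U, Zero (at' F j) fun a => x a j :=
  all_fin fun i => zero_iff hπ x (F i)

theorem vec_ne {κ : Type} [Finite κ] (x : κ → ∀ j, K j) :
    ((fun a => π (x a)) ≠ 0) ↔ ∀ᶠ j in U, (fun a => x a j) ≠ 0 := by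
  have h1 := vec_eq hπ x fun _ => 0
  simp only [map_zero] at h1
  exact not_iff h1

/-- An equation between values. -/
theorem val_eq {a b : ∀ j, K j} {a' b' : L} {a'' b'' : ∀ j, K j} (h1 : a' = π a) (h2 : b' = π b)
    (h3 : ∀ j, a'' j = a j) (h4 : ∀ j, b'' j = b j) : a' = b' ↔ ∀ᶠ j in U, a'' j = b'' j := by
  rw [h1, h2, hπ.eq_iff]
  refine eventually_congr (Eventually.of_forall fun j => ?_)
  rw [h3, h4]

theorem smooth_los (e c : ℕ) :
    SmoothBy e c (lim π F) ↔ ∀ᶠ j in U, SmoothBy e c (at' F j) := by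
  refine all_vec hπ fun x => imp_iff (vec_ne hπ x) (imp_iff (zero_los hπ F x) ?_)
  refine ex_fin fun T => and_iff (ex_fin fun A => not_iff ?_) ?_
  · have h1 := zero_iff hπ x (jac F T A)
    have h2 : ∀ j, jac (at' F j) T A = map (Pi.evalRingHom K j) (jac F T A) := fun j =>
      jac_map _ _ _ _
    have h3 : jac (lim π F) T A = map π (jac F T A) := jac_map _ _ _ _
    simp only [h2, h3]
    exact h1
  · refine ex_one hπ c fun u => and_iff (not_iff (zero_iff hπ x u)) ?_
    exact all_vec hπ fun y => imp_iff (all_fin fun i => zero_iff hπ y (F (T i)))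
      (imp_iff (not_iff (zero_iff hπ y u)) (zero_los hπ F y))

theorem canonical_iff (e m k : ℕ) (Q : (Fin e → Fin N) × Fin (r + 1) →
    MvPolynomial (Fin (r + 1)) (∀ j, K j)) :
    IsCanonical e m k (lim π F) (fun a => map π (Q a)) ↔
      ∀ᶠ j in U, IsCanonical e m k (at' F j) fun a => map (Pi.evalRingHom K j) (Q a) := by
  refine all_vec hπ fun x => imp_iff (zero_los hπ F x) (and_iff ?_ ?_)
  · refine all_fin fun T => all_fin fun i => all_fin fun i' => ?_
    refine val_eq hπ (a := x i' ^ (m * (r + 1) + k) * eval x (Q (T, i)))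
      (b := x i ^ (m * (r + 1) + k) * eval x (Q (T, i'))) ?_ ?_ (fun j => ?_) fun j => ?_
    · rw [map_mul, map_pow, eval_pi]
    · rw [map_mul, map_pow, eval_pi]
    · rw [Pi.mul_apply, Pi.pow_apply, eval_ev]
    · rw [Pi.mul_apply, Pi.pow_apply, eval_ev]
  · refine all_fin fun T => all_fin fun T' => all_fin fun A => all_fin fun i => ?_
    have h2 : ∀ (T : Fin e → Fin N) (j : J), jac (at' F j) T A =
      map (Pi.evalRingHom K j) (jac F T A) := fun T j => jac_map _ _ _ _
    have h3 : ∀ T : Fin e → Fin N, jac (lim π F) T A = map π (jac F T A) := fun T =>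
      jac_map _ _ _ _
    simp only [h2, h3]
    refine val_eq hπ (a := eval x (Q (T, i)) * eval x (jac F T' A) ^ m)
      (b := eval x (Q (T', i)) * eval x (jac F T A) ^ m) ?_ ?_ (fun j => ?_) fun j => ?_
    · rw [map_mul, map_pow, eval_pi, eval_pi]
    · rw [map_mul, map_pow, eval_pi, eval_pi]
    · rw [Pi.mul_apply, Pi.pow_apply, eval_ev, eval_ev]
    · rw [Pi.mul_apply, Pi.pow_apply, eval_ev, eval_ev]

theorem semiample_los (e c : ℕ) (δ : Fin N → ℕ) :
    SemiampleBy e c δ (lim π F) ↔ ∀ᶠ j in U, SemiampleBy e c δ (at' F j) := by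
  have h1 : ∀ m : ℕ, (∀ x : Fin (r + 1) → L, x ≠ 0 → Zero (lim π F) x →
      ∃ P : (Fin e → Fin N) × Fin (r + 1) → MvPolynomial (Fin (r + 1)) L,
        (∀ a, (P a).IsHomogeneous (m * (∑ i, δ (a.1 i)) + c)) ∧ IsCanonical e m c (lim π F) P ∧
          ∃ a, eval x (P a) ≠ 0) ↔
      ∀ᶠ j in U, ∀ x : Fin (r + 1) → K j, x ≠ 0 → Zero (at' F j) x →
        ∃ P : (Fin e → Fin N) × Fin (r + 1) → MvPolynomial (Fin (r + 1)) (K j),
          (∀ a, (P a).IsHomogeneous (m * (∑ i, δ (a.1 i)) + c)) ∧ IsCanonical e m c (at' F j) P ∧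
            ∃ a, eval x (P a) ≠ 0 := by
    intro m
    refine all_vec hπ fun x => imp_iff (vec_ne hπ x) (imp_iff (zero_los hπ F x) ?_)
    exact ex_form hπ (fun a : (Fin e → Fin N) × Fin (r + 1) => m * (∑ i, δ (a.1 i)) + c)
      (A := fun P => IsCanonical e m c (lim π F) P ∧ ∃ a, eval (fun i => π (x i)) (P a) ≠ 0)
      (B := fun j P => IsCanonical e m c (at' F j) P ∧ ∃ a, eval (fun i => x i j) (P a) ≠ 0)
      fun Q => and_iff (canonical_iff hπ F e m c Q) (ex_fin fun a => not_iff (zero_iff hπ x (Q a)))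
  have h3 := ex_fin (ι := Fin (c + 1)) (U := U) (A := fun m : Fin (c + 1) => 1 ≤ (m : ℕ) ∧ _)
    (B := fun (m : Fin (c + 1)) j => 1 ≤ (m : ℕ) ∧ _) fun m =>
      and_iff (const_prop (P := 1 ≤ (m : ℕ))) (h1 m)
  have h4 : ∀ P : ℕ → Prop, (∃ m, m ≤ c ∧ P m) ↔ ∃ m : Fin (c + 1), P m := by
    intro P
    constructor
    · rintro ⟨m, hm, h⟩
      exact ⟨⟨m, Nat.lt_succ_of_le hm⟩, h⟩
    · rintro ⟨m, h⟩
      exact ⟨m, Nat.le_of_lt_succ m.2, h⟩
  simp only [SemiampleBy, h4]
  exact h3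

theorem hasSection_los (e k : ℕ) (δ : Fin N → ℕ)
    (τ : Fin (r + 1) → MvPolynomial (Fin 2) (∀ j, K j)) :
    HasSection e k δ (lim π F) (fun a => map π (τ a)) ↔
      ∀ᶠ j in U, HasSection e k δ (at' F j) fun a => map (Pi.evalRingHom K j) (τ a) := by
  refine ex_form hπ (fun T : Fin e → Fin N => k * (∑ i, δ (T i)) - k * (r + 1)) fun p =>
    and_iff ?_ (and_iff ?_ ?_)
  · exact all_fin fun T => imp_iff const_prop (all_vec hπ fun s => zero_iff hπ s (p T))
  · refine all_fin fun T => all_fin fun T' => all_fin fun A => all_vec hπ fun s => ?_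
    have h2 : ∀ (T : Fin e → Fin N) (j : J), jac (at' F j) T A =
      map (Pi.evalRingHom K j) (jac F T A) := fun T j => jac_map _ _ _ _
    have h3 : ∀ T : Fin e → Fin N, jac (lim π F) T A = map π (jac F T A) := fun T =>
      jac_map _ _ _ _
    have h5 : (fun a => eval (fun i => π (s i)) (map π (τ a))) = fun a => π (eval s (τ a)) :=
      _root_.funext fun a => eval_pi s (τ a)
    have h6 : ∀ j, (fun a => eval (fun i => s i j) (map (Pi.evalRingHom K j) (τ a))) =
        fun a => (eval s (τ a) : ∀ j, K j) j := fun j =>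
      _root_.funext fun a => (eval_ev s (τ a) j).symm
    simp only [h2, h3, h5, h6]
    refine val_eq hπ (a := eval s (p T) * eval (fun a => eval s (τ a)) (jac F T' A))
      (b := eval s (p T') * eval (fun a => eval s (τ a)) (jac F T A)) ?_ ?_ (fun j => ?_)
      fun j => ?_
    · rw [map_mul, eval_pi, eval_pi]
    · rw [map_mul, eval_pi, eval_pi]
    · rw [Pi.mul_apply, eval_ev, eval_ev]
    · rw [Pi.mul_apply, eval_ev, eval_ev]
  · exact ex_fin fun T => ex_vec hπ fun s => not_iff (zero_iff hπ s (p T))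

theorem nef_los (e k : ℕ) (δ : Fin N → ℕ) :
    NefAt e k δ (lim π F) ↔ ∀ᶠ j in U, NefAt e k δ (at' F j) := by
  refine all_form hπ (fun _ => k) fun τ => imp_iff ?_ (imp_iff ?_ (hasSection_los hπ F e k δ τ))
  · exact all_vec hπ fun s => imp_iff (vec_ne hπ s) (ex_fin fun a => not_iff (zero_iff hπ s (τ a)))
  · exact all_vec hπ fun s => all_fin fun i => comp_iff hπ s τ (F i)

end Pool.Agent.H837.AB
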