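import Pool.Agent.H837.UR.Main
import Pool.Agent.H837.AB.El

/-!
# Uniformity of abundance
-/

set_option autoImplicit false

namespace Pool.Agent.H837.AB

open MvPolynomial Pool.Agent.H837.UF Pool.Agent.H837.SP Pool.Agent.H837.UR
open Filter hiding map

section Mono

variable {K : Type} [Field K] {r N : ℕ}

theorem SemiampleBy.mono {e c c' : ℕ} (hcc : c ≤ c') {δ : Fin N → ℕ}
    {F : Fin N → MvPolynomial (Fin (r + 1)) K} (h : SemiampleBy e c δ F) :
    SemiampleBy e c' δ F := by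
  obtain ⟨m, hm, hm1, h⟩ := h
  refine ⟨m, hm.trans hcc, hm1, fun x hx hX => ?_⟩
  obtain ⟨P, hP, hcan, ⟨T, i⟩, hne⟩ := h x hx hX
  refine ⟨fun a => X a.2 ^ (c' - c) * P a, fun a => ?_, fun y hy => ⟨fun T j j' => ?_,
    fun T T' A j => ?_⟩, ⟨T, i⟩, ?_⟩
  · have h1 := ((isHomogeneous_X K a.2).pow (c' - c)).mul (hP a)
    have h2 : 1 * (c' - c) + (m * (∑ i, δ (a.1 i)) + c) = m * (∑ i, δ (a.1 i)) + c' := by omega
    rw [h2] at h1
    exact h1
  · have h1 := (hcan y hy).1 T j j'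
    rw [eval_mul, eval_mul, eval_pow, eval_pow, eval_X, eval_X]
    have h2 : m * (r + 1) + c' = (m * (r + 1) + c) + (c' - c) := by omega
    rw [h2, pow_add, pow_add]
    linear_combination (y j' ^ (c' - c) * y j ^ (c' - c)) * h1
  · have h1 := (hcan y hy).2 T T' A j
    rw [eval_mul, eval_mul, eval_pow, eval_X]
    linear_combination (y j ^ (c' - c)) * h1
  · rw [eval_mul, eval_pow, eval_X]
    refine mul_ne_zero (pow_ne_zero _ ?_) hne
    intro h0
    obtain ⟨j', hj'⟩ : ∃ j', x j' ≠ 0 := by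
      by_contra hcon
      push Not at hcon
      exact hx (_root_.funext hcon)
    have h1 := (hcan x hX).1 T i j'
    have h2 : m * (r + 1) + c ≠ 0 := by
      have : 0 < m * (r + 1) := Nat.mul_pos (by omega) (Nat.succ_pos r)
      omega
    rw [h0, zero_pow h2, zero_mul] at h1
    exact (mul_ne_zero (pow_ne_zero _ hj') hne) h1

end Mono

/-- Compatibility of a property of systems of polynomials over algebraically closed fields with
ultraproducts. -/
def IsLosN {r N : ℕ}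
    (P : ∀ (K : Type) [Field K], (Fin N → MvPolynomial (Fin (r + 1)) K) → Prop) : Prop :=
  ∀ (J : Type) (U : Ultrafilter J) (K : J → Type) [∀ j, Field (K j)] [∀ j, IsAlgClosed (K j)]
    (L : Type) [Field L] (π : (∀ j, K j) →+* L), IsUltra U π →
      ∀ F : Fin N → MvPolynomial (Fin (r + 1)) (∀ j, K j),
        (P L (fun i => map π (F i)) ↔
          ∀ᶠ j in U, P (K j) fun i => map (Pi.evalRingHom K j) (F i))

theorem IsLosN.elementary {r N : ℕ}
    {P : ∀ (K : Type) [Field K], (Fin N → MvPolynomial (Fin (r + 1)) K) → Prop}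
    (hP : IsLosN P) {R : Type} [CommRing R] (F : Fin N → MvPolynomial (Fin (r + 1)) R) :
    Elementary (R := R) (fun K _ φ => P K fun i => map φ (F i)) := by
  intro J U K _ _ L _ π hπ φ
  have h1 : (fun i => map (π.comp (RingHom.pi φ)) (F i)) =
      fun i => map π (map (RingHom.pi φ) (F i)) :=
    _root_.funext fun i => (MvPolynomial.map_map _ _ _).symm
  have h2 : ∀ j, (fun i => map (φ j) (F i)) =
      fun i => map (Pi.evalRingHom K j) (map (RingHom.pi φ) (F i)) := by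
    intro j
    have h3 : (Pi.evalRingHom K j).comp (RingHom.pi φ) = φ j := RingHom.ext fun _ => rfl
    funext i
    rw [MvPolynomial.map_map, h3]
  show P L (fun i => map (π.comp (RingHom.pi φ)) (F i)) ↔ ∀ᶠ j in U, P (K j) fun i => map (φ j) (F i)
  rw [h1, hP J U K L π hπ]
  refine eventually_congr (Eventually.of_forall fun j => ?_)
  rw [h2]

theorem uniform_isLos {r N : ℕ} (e b c : ℕ) (δ : Fin N → ℕ) :
    IsLosN (r := r) (N := N) fun _ _ F => SmoothBy e b F → (∀ k ≤ c, NefAt e k δ F) →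
      SemiampleBy e c δ F := by
  intro J U K _ _ L _ π hπ F
  refine imp_iff (smooth_los hπ F e b) (imp_iff ?_ (semiample_los hπ F e c δ))
  have h1 := all_fin (ι := Fin (c + 1)) (U := U)
    (A := fun k : Fin (c + 1) => NefAt e (k : ℕ) δ (lim π F))
    (B := fun (k : Fin (c + 1)) j => NefAt e (k : ℕ) δ (at' F j)) fun k => nef_los hπ F e k δ
  have h2 : ∀ P : ℕ → Prop, (∀ k ≤ c, P k) ↔ ∀ k : Fin (c + 1), P k := by
    intro P
    constructor
    · intro h k
      exact h k (Nat.le_of_lt_succ k.2)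
    · intro h k hk
      exact h ⟨k, Nat.lt_succ_of_le hk⟩
  simp only [h2]
  exact h1

/-! ### Generic systems of forms -/

/-- The exponents of the monomials of degrees `δ i`. -/
abbrev Expos (r : ℕ) {N : ℕ} (δ : Fin N → ℕ) : Type := (i : Fin N) × Expo r (δ i)

/-- The generic form of degree `δ i`. -/
noncomputable def generics (r : ℕ) {N : ℕ} (δ : Fin N → ℕ) (i : Fin N) :
    MvPolynomial (Fin (r + 1)) (MvPolynomial (Expos r δ) ℤ) :=
  map (rename fun μ : Expo r (δ i) => (⟨i, μ⟩ : Expos r δ)).toRingHom (generic r (δ i))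

theorem generics_isHomogeneous (r : ℕ) {N : ℕ} (δ : Fin N → ℕ) (i : Fin N) :
    (generics r δ i).IsHomogeneous (δ i) := (generic_isHomogeneous r (δ i)).map _

theorem exists_homs {K : Type} [Field K] {r N : ℕ} {δ : Fin N → ℕ}
    {F : Fin N → MvPolynomial (Fin (r + 1)) K} (hF : ∀ i, (F i).IsHomogeneous (δ i)) :
    ∃ t : MvPolynomial (Expos r δ) ℤ →+* K, (fun i => map t (generics r δ i)) = F := by
  choose t ht using fun i => exists_hom (hF i)
  refine ⟨eval₂Hom (Int.castRingHom K) fun a => t a.1 (X a.2), ?_⟩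
  funext i
  have h5 : (eval₂Hom (Int.castRingHom K) fun a : Expos r δ => t a.1 (X a.2)).comp
      (rename fun μ : Expo r (δ i) => (⟨i, μ⟩ : Expos r δ)).toRingHom = t i := by
    refine ringHom_ext (fun a => ?_) fun μ => ?_
    · show eval₂Hom (Int.castRingHom K) (fun a : Expos r δ => t a.1 (X a.2))
        (rename (fun μ : Expo r (δ i) => (⟨i, μ⟩ : Expos r δ)) (C a)) = t i (C a)
      rw [rename_C]
      have h1 : ∀ f g : ℤ →+* K, f a = g a := fun f g => by rw [RingHom.ext_int f g]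
      exact (eval₂Hom_C _ _ _).trans (h1 _ ((t i).comp C))
    · show eval₂Hom (Int.castRingHom K) (fun a : Expos r δ => t a.1 (X a.2))
        (rename (fun μ : Expo r (δ i) => (⟨i, μ⟩ : Expos r δ)) (X μ)) = t i (X μ)
      rw [rename_X]
      exact eval₂Hom_X' _ _ _
  rw [generics, MvPolynomial.map_map, h5, ht i]

theorem family_tfae (r N e b : ℕ) (δ : Fin N → ℕ) :
    [∀ F : Fin N → MvPolynomial (Fin (r + 1)) ℂ, (∀ i, (F i).IsHomogeneous (δ i)) →
       SmoothBy e b F → (∀ k, NefAt e k δ F) → ∃ c, SemiampleBy e c δ F,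
     ∃ c M : ℕ, M ≠ 0 ∧ ∀ (K : Type) [Field K] [IsAlgClosed K], (M : K) ≠ 0 →
       ∀ F : Fin N → MvPolynomial (Fin (r + 1)) K, (∀ i, (F i).IsHomogeneous (δ i)) →
         SmoothBy e b F → (∀ k ≤ c, NefAt e k δ F) → SemiampleBy e c δ F,
     ∃ c ℓ₀ : ℕ, ∀ (ℓ : ℕ) [Fact ℓ.Prime], ℓ₀ ≤ ℓ →
       ∀ F : Fin N → MvPolynomial (Fin (r + 1)) (AlgebraicClosure (ZMod ℓ)),
         (∀ i, (F i).IsHomogeneous (δ i)) → SmoothBy e b F → (∀ k ≤ c, NefAt e k δ F) →
           SemiampleBy e c δ F,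
     ∃ c : ℕ, ∀ ℓ₀ : ℕ, ∃ (ℓ : ℕ) (_ : Fact ℓ.Prime), ℓ₀ ≤ ℓ ∧
       ∀ F : Fin N → MvPolynomial (Fin (r + 1)) (AlgebraicClosure (ZMod ℓ)),
         (∀ i, (F i).IsHomogeneous (δ i)) → SmoothBy e b F → (∀ k ≤ c, NefAt e k δ F) →
           SemiampleBy e c δ F].TFAE := by
  have hfin : Finite (Expos r δ) := Finite.of_fintype (Expos r δ)
  have hft := finiteType_int (Expos r δ)
  have hT := uniform_tfae (R := MvPolynomial (Expos r δ) ℤ)
    (Q := fun c K _ t => SmoothBy e b (fun i => map t (generics r δ i)) →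
      (∀ k ≤ c, NefAt e k δ fun i => map t (generics r δ i)) →
        SemiampleBy e c δ fun i => map t (generics r δ i))
    (fun c => (uniform_isLos e b c δ).elementary (generics r δ))
    (fun c c' hcc K _ φ h h1 h2 => (h h1 fun k hk => h2 k (hk.trans hcc)).mono hcc)
  have hdeg : ∀ (K : Type) [Field K] (t : MvPolynomial (Expos r δ) ℤ →+* K) (i : Fin N),
      (map t (generics r δ i)).IsHomogeneous (δ i) := fun K _ t i =>
    (generics_isHomogeneous r δ i).map t
  have key : ∀ (c : ℕ) (K : Type) [Field K],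
      (∀ t : MvPolynomial (Expos r δ) ℤ →+* K, SmoothBy e b (fun i => map t (generics r δ i)) →
        (∀ k ≤ c, NefAt e k δ fun i => map t (generics r δ i)) →
          SemiampleBy e c δ fun i => map t (generics r δ i)) ↔
      ∀ F : Fin N → MvPolynomial (Fin (r + 1)) K, (∀ i, (F i).IsHomogeneous (δ i)) →
        SmoothBy e b F → (∀ k ≤ c, NefAt e k δ F) → SemiampleBy e c δ F := by
    intro c K _
    constructor
    · intro h F hF h1 h2
      obtain ⟨t, rfl⟩ := exists_homs hF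
      exact h t h1 h2
    · intro h t h1 h2
      exact h _ (hdeg K t) h1 h2
  tfae_have 1 → 2 := by
    intro h
    have h02 := hT.out 0 2
    obtain ⟨c, M, hM, hc⟩ := h02.mp fun t => by
      by_cases h1 : SmoothBy e b (fun i => map t (generics r δ i))
      · by_cases h2 : ∀ k, NefAt e k δ fun i => map t (generics r δ i)
        · obtain ⟨c, hc⟩ := h _ (hdeg ℂ t) h1 h2
          exact ⟨c, fun _ _ => hc⟩
        · push Not at h2
          obtain ⟨k, hk⟩ := h2
          exact ⟨k, fun _ h3 => absurd (h3 k le_rfl) hk⟩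
      · exact ⟨0, fun h3 => absurd h3 h1⟩
    exact ⟨c, M, hM, fun K _ _ hMK => (key c K).mp fun t => hc K t hMK⟩
  tfae_have 2 → 3 := by
    rintro ⟨c, M, hM, hc⟩
    refine ⟨c, M + 1, fun ℓ hℓ hle => hc _ ?_⟩
    intro h0
    rw [CharP.cast_eq_zero_iff (AlgebraicClosure (ZMod ℓ)) ℓ] at h0
    have h3 := Nat.le_of_dvd (Nat.pos_of_ne_zero hM) h0
    omega
  tfae_have 3 → 4 := by
    rintro ⟨c, ℓ₀, hc⟩
    refine ⟨c, fun ℓ₁ => ?_⟩
    obtain ⟨ℓ, hle, hℓ⟩ := Nat.exists_infinite_primes (max ℓ₀ ℓ₁)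
    have hf : Fact ℓ.Prime := ⟨hℓ⟩
    exact ⟨ℓ, hf, (le_max_right _ _).trans hle, hc ℓ ((le_max_left _ _).trans hle)⟩
  tfae_have 4 → 1 := by
    rintro ⟨c, hc⟩
    have h41 := hT.out 4 1
    obtain ⟨c', hc'⟩ := h41.mp ⟨c, fun ℓ₀ => by
      obtain ⟨ℓ, hf, hle, h⟩ := hc ℓ₀
      exact ⟨ℓ, hf, hle, (key c _).mpr h⟩⟩
    intro F hF h1 h2
    exact ⟨c', (key c' ℂ).mp hc' F hF h1 fun k _ => h2 k⟩
  tfae_finish

/-- **Abundance for smooth projective varieties, and bounded statements over finite fields.** -/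
theorem abundance_tfae (n : ℕ) :
    [∀ (K : Type) [Field K] [IsAlgClosed K] [CharZero K], Abundance n K,
     Abundance n ℂ,
     ∀ (e N b : ℕ) (δ : Fin N → ℕ), ∃ c M : ℕ, M ≠ 0 ∧
       ∀ (K : Type) [Field K] [IsAlgClosed K], (M : K) ≠ 0 →
       ∀ F : Fin N → MvPolynomial (Fin (n + e + 1)) K, (∀ i, (F i).IsHomogeneous (δ i)) →
         SmoothBy e b F → (∀ k ≤ c, NefAt e k δ F) → SemiampleBy e c δ F,
     ∀ (e N b : ℕ) (δ : Fin N → ℕ), ∃ c ℓ₀ : ℕ, ∀ (ℓ : ℕ) [Fact ℓ.Prime], ℓ₀ ≤ ℓ →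
       ∀ F : Fin N → MvPolynomial (Fin (n + e + 1)) (AlgebraicClosure (ZMod ℓ)),
         (∀ i, (F i).IsHomogeneous (δ i)) → SmoothBy e b F → (∀ k ≤ c, NefAt e k δ F) →
           SemiampleBy e c δ F,
     ∀ (e N b : ℕ) (δ : Fin N → ℕ), ∃ c : ℕ, ∀ ℓ₀ : ℕ, ∃ (ℓ : ℕ) (_ : Fact ℓ.Prime), ℓ₀ ≤ ℓ ∧
       ∀ F : Fin N → MvPolynomial (Fin (n + e + 1)) (AlgebraicClosure (ZMod ℓ)),
         (∀ i, (F i).IsHomogeneous (δ i)) → SmoothBy e b F → (∀ k ≤ c, NefAt e k δ F) →
           SemiampleBy e c δ F].TFAE := by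
  tfae_have 1 → 2 := fun h => h ℂ
  tfae_have 2 → 3 := by
    intro h e N b δ
    exact ((family_tfae (n + e) N e b δ).out 0 1).mp fun F hF h1 h2 => h e N δ F hF ⟨b, h1⟩ h2
  tfae_have 3 → 1 := by
    intro h K _ _ _ e N δ F hF h1 h2
    obtain ⟨b, hb⟩ := h1
    obtain ⟨c, M, hM, hc⟩ := h e N b δ
    exact ⟨c, hc K (Nat.cast_ne_zero.mpr hM) F hF hb fun k _ => h2 k⟩
  tfae_have 3 ↔ 4 := forall_congr' fun e => forall_congr' fun N =>
    forall_congr' fun b => forall_congr' fun δ => (family_tfae (n + e) N e b δ).out 1 2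
  tfae_have 3 ↔ 5 := forall_congr' fun e => forall_congr' fun N =>
    forall_congr' fun b => forall_congr' fun δ => (family_tfae (n + e) N e b δ).out 1 3
  tfae_finish

end Pool.Agent.H837.AB
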