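import Pool.Agent.H837.UR.Qbar
import Pool.Agent.H837.AB.Main

/-!
# Uniform statements over the algebraic numbers
-/

set_option autoImplicit false

namespace Pool.Agent.H837.AB

open MvPolynomial Pool.Agent.H837.UF Pool.Agent.H837.SP Pool.Agent.H837.UR
open Filter hiding map

/-- A uniform statement over the algebraic numbers is true over the complex numbers. -/
theorem IsLosN.of_qbar {r N : ℕ}
    {P : ∀ (K : Type) [Field K], (Fin N → MvPolynomial (Fin (r + 1)) K) → Prop}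
    (hP : IsLosN P) {δ : Fin N → ℕ}
    (h : ∀ F : Fin N → MvPolynomial (Fin (r + 1)) (AlgebraicClosure ℚ),
      (∀ i, (F i).IsHomogeneous (δ i)) → P _ F) (F : Fin N → MvPolynomial (Fin (r + 1)) ℂ)
    (hF : ∀ i, (F i).IsHomogeneous (δ i)) : P ℂ F := by
  obtain ⟨π, hπ⟩ := exists_ultra_qbar
  choose Q hQ hQF using fun i => hπ.exists_lift (hF i)
  obtain rfl : (fun i => map π (Q i)) = F := _root_.funext hQF
  exact (hP ℕ (hyperfilter ℕ) (fun _ => AlgebraicClosure ℚ) ℂ π hπ Q).mpr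
    (Eventually.of_forall fun j => h _ fun i => (hQ i).map _)

/-- **Abundance for smooth projective varieties, varieties over the algebraic numbers, and bounded
statements over finite fields.** -/
theorem abundance_tfae_qbar (n : ℕ) :
    [∀ (K : Type) [Field K] [IsAlgClosed K] [CharZero K], Abundance n K,
     Abundance n ℂ,
     ∀ (e N b : ℕ) (δ : Fin N → ℕ), ∃ c M : ℕ, M ≠ 0 ∧
       ∀ (K : Type) [Field K] [IsAlgClosed K], (M : K) ≠ 0 →
       ∀ F : Fin N → MvPolynomial (Fin (n + e + 1)) K, (∀ i, (F i).IsHomogeneous (δ i)) →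
         SmoothBy e b F → (∀ k ≤ c, NefAt e k δ F) → SemiampleBy e c δ F,
     ∀ (e N b : ℕ) (δ : Fin N → ℕ), ∃ c : ℕ,
       ∀ F : Fin N → MvPolynomial (Fin (n + e + 1)) (AlgebraicClosure ℚ),
         (∀ i, (F i).IsHomogeneous (δ i)) → SmoothBy e b F → (∀ k ≤ c, NefAt e k δ F) →
           SemiampleBy e c δ F,
     ∀ (e N b : ℕ) (δ : Fin N → ℕ), ∃ c ℓ₀ : ℕ, ∀ (ℓ : ℕ) [Fact ℓ.Prime], ℓ₀ ≤ ℓ →
       ∀ F : Fin N → MvPolynomial (Fin (n + e + 1)) (AlgebraicClosure (ZMod ℓ)),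
         (∀ i, (F i).IsHomogeneous (δ i)) → SmoothBy e b F → (∀ k ≤ c, NefAt e k δ F) →
           SemiampleBy e c δ F,
     ∀ (e N b : ℕ) (δ : Fin N → ℕ), ∃ c : ℕ, ∀ ℓ₀ : ℕ, ∃ (ℓ : ℕ) (_ : Fact ℓ.Prime), ℓ₀ ≤ ℓ ∧
       ∀ F : Fin N → MvPolynomial (Fin (n + e + 1)) (AlgebraicClosure (ZMod ℓ)),
         (∀ i, (F i).IsHomogeneous (δ i)) → SmoothBy e b F → (∀ k ≤ c, NefAt e k δ F) →
           SemiampleBy e c δ F].TFAE := by
  have h := abundance_tfae n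
  tfae_have 1 ↔ 2 := h.out 0 1
  tfae_have 2 ↔ 3 := h.out 1 2
  tfae_have 3 ↔ 5 := h.out 2 3
  tfae_have 3 ↔ 6 := h.out 2 4
  tfae_have 3 → 4 := by
    intro h e N b δ
    obtain ⟨c, M, hM, hc⟩ := h e N b δ
    exact ⟨c, hc (AlgebraicClosure ℚ) (Nat.cast_ne_zero.mpr hM)⟩
  tfae_have 4 → 2 := by
    rintro h e N δ F hF ⟨b, hb⟩ h2
    obtain ⟨c, hc⟩ := h e N b δ
    exact ⟨c, (uniform_isLos e b c δ).of_qbar (fun F hF => hc F hF) F hF hb fun k _ => h2 k⟩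
  tfae_finish

end Pool.Agent.H837.AB
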